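import Mathlib
import Pool.Agent.Lib.MP_edb5be_nt.H13.SparseExplicit
import Pool.Agent.Lib.MP_0a5adf_nt.EXP.H89.Full

/-!
# Families of cycles: bounds for `∑ |p log 2 - k log 3|`
-/

set_option autoImplicit false

namespace Pool.Agent.Lib.MP_edb5be_nt.H26F

open Function Pool.Agent.Lib.MP_edb5be_nt.H13

variable {ι : Type*}

/-- Sum of `|p log 2 - k log 3|` over a family of different unknown cycles of one sign. -/
theorem sum_lam_family (F : Finset ι) (f : ι → ℤ)
    (hF : ∀ i ∈ F, f i ∈ periodicPts T ∧ f i ∉ Dyn.known)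
    (hdisj : (F : Set ι).PairwiseDisjoint (fun i => orb (f i)))
    (hsign : (∀ i ∈ F, 0 < f i) ∨ (∀ i ∈ F, f i < 0)) :
    ∑ i ∈ F, |lam (f i)| ≤ 668 / 1000 := by
  classical
  have hper : ∀ i ∈ F, f i ∈ periodicPts T := fun i hi => (hF i hi).1
  set A := F.biUnion (fun i => orb (f i)) with hA
  have hT : A.image T = A := by
    rw [hA, Finset.biUnion_image]
    exact Finset.biUnion_congr rfl fun i hi => orb_image (hper i hi)
  have hAsign : (∀ y ∈ A, 0 < y) ∨ (∀ y ∈ A, y < 0) := by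
    rcases hsign with h | h
    · left
      intro y hy
      obtain ⟨i, hi, hy⟩ := Finset.mem_biUnion.1 hy
      obtain ⟨j, rfl⟩ := (mem_orb (hper i hi)).1 hy
      exact iterate_pos' (h i hi) j
    · right
      intro y hy
      obtain ⟨i, hi, hy⟩ := Finset.mem_biUnion.1 hy
      obtain ⟨j, rfl⟩ := (mem_orb (hper i hi)).1 hy
      exact iterate_neg' (h i hi) j
  have hAk : ∀ y ∈ A, y ∉ Dyn.known := by
    intro y hy
    obtain ⟨i, hi, hy⟩ := Finset.mem_biUnion.1 hy
    exact orb_not_known (hper i hi) (hF i hi).2 y hy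
  have hnice := nice_of hT hAsign hAk
  have hmain := abs_lam_set_le hnice
  have hcard : (A.card : ℝ) = ∑ i ∈ F, (minimalPeriod T (f i) : ℝ) := by
    rw [hA, Finset.card_biUnion hdisj]
    push_cast
    exact Finset.sum_congr rfl fun i _ => by rw [orb_card]
  have hcard2 : ((A.filter (fun y => y % 2 ≠ 0)).card : ℝ) =
      ∑ i ∈ F, ((par (minimalPeriod T (f i)) (f i)).card : ℝ) := by
    rw [hA, Finset.filter_biUnion, Finset.card_biUnion]
    · push_cast
      exact Finset.sum_congr rfl fun i _ => by rw [orb_odd_card]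
    · intro i hi i' hi' hne
      exact (hdisj hi hi' hne).mono (Finset.filter_subset _ _) (Finset.filter_subset _ _)
  rw [hcard, hcard2, Finset.sum_mul, Finset.sum_mul, ← Finset.sum_sub_distrib] at hmain
  have hsum : ∑ i ∈ F, |lam (f i)| = |∑ i ∈ F, lam (f i)| := by
    rcases hsign with h | h
    · have h0 : ∀ i ∈ F, 0 ≤ lam (f i) := by
        intro i hi
        have hne : f i ≠ 0 := (h i hi).ne'
        rw [lam_eq hne]
        refine Finset.sum_nonneg fun j _ => Real.log_nonneg ?_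
        have h1 : (0 : ℝ) < (T^[j] (f i) : ℝ) := by exact_mod_cast iterate_pos' (h i hi) j
        have h2 : 0 < 1 / (3 * (T^[j] (f i) : ℝ)) := by positivity
        linarith
      rw [abs_of_nonneg (Finset.sum_nonneg h0)]
      exact Finset.sum_congr rfl fun i hi => abs_of_nonneg (h0 i hi)
    · have h0 : ∀ i ∈ F, lam (f i) ≤ 0 := by
        intro i hi
        have hne : f i ≠ 0 := (h i hi).ne
        rw [lam_eq hne]
        refine Finset.sum_nonpos fun j _ => ?_
        have h1 : (T^[j] (f i) : ℝ) ≤ -1 := by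
          have := iterate_neg' (h i hi) j
          exact_mod_cast (by omega : T^[j] (f i) ≤ -1)
        have h2 : 1 / (3 * (T^[j] (f i) : ℝ)) ≤ 0 := by
          apply div_nonpos_of_nonneg_of_nonpos one_pos.le
          linarith
        have h3 : -1 / 3 ≤ 1 / (3 * (T^[j] (f i) : ℝ)) := by
          rw [le_div_iff_of_neg (by linarith)]
          linarith
        exact Real.log_nonpos (by linarith) (by linarith)
      rw [abs_of_nonpos (Finset.sum_nonpos h0), ← Finset.sum_neg_distrib]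
      exact Finset.sum_congr rfl fun i hi => abs_of_nonpos (h0 i hi)
  rw [hsum]
  exact hmain

/-- Reciprocals of periodic points of absolute value at least `y`. -/
theorem recip_tail : ∃ K : ℝ, 0 ≤ K ∧ ∀ (y : ℝ), 1 ≤ y → ∀ A : Finset ℤ,
    (∀ z ∈ A, z ∈ periodicPts T ∧ y ≤ |(z : ℝ)|) →
      ∑ z ∈ A, 1 / |(z : ℝ)| ≤ K * y ^ (-(0.059 : ℝ)) := by
  classical
  obtain ⟨C0, hC0⟩ := Pool.Agent.Lib.MP_0a5adf_nt.EXP.H89.per_thm
  set C : ℝ := max C0 0 with hCdef
  have hCnn : 0 ≤ C := le_max_right _ _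
  have hC : ∀ X : ℝ, 1 ≤ X →
      ({x : ℤ | |(x : ℝ)| ≤ X ∧ x ∈ Function.periodicPts T}.ncard : ℝ) ≤ C * X ^ (0.941 : ℝ) := by
    intro X hX
    refine (hC0 X hX).trans ?_
    gcongr
    exact le_max_left _ _
  set r : ℝ := (2 : ℝ) ^ (-(0.059 : ℝ)) with hr
  have hr0 : 0 < r := Real.rpow_pos_of_pos (by norm_num) _
  have hr1 : r < 1 := Real.rpow_lt_one_of_one_lt_of_neg (by norm_num) (by norm_num)
  refine ⟨2 * C * (1 / (1 - r)), by have : 0 < 1 - r := by linarith
                                    positivity, ?_⟩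
  intro y hy A hA
  have hy0 : 0 < y := by linarith
  set Y : ℝ := y ^ (-(0.059 : ℝ)) with hY
  have hY0 : 0 < Y := Real.rpow_pos_of_pos hy0 _
  have key : ∀ n : ℕ, ∑ z ∈ A.filter (fun z : ℤ => |(z : ℝ)| < 2 ^ n * y), 1 / |(z : ℝ)|
      ≤ 2 * C * Y * ∑ i ∈ Finset.range n, r ^ i := by
    intro n
    induction n with
    | zero =>
      have : A.filter (fun z : ℤ => |(z : ℝ)| < 2 ^ 0 * y) = ∅ := by
        refine Finset.filter_eq_empty_iff.2 fun z hz => ?_
        rw [pow_zero, one_mul, not_lt]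
        exact (hA z hz).2
      rw [this]
      simp
    | succ n ih =>
      have hsplit : A.filter (fun z : ℤ => |(z : ℝ)| < 2 ^ (n + 1) * y)
          = A.filter (fun z : ℤ => |(z : ℝ)| < 2 ^ n * y) ∪
            A.filter (fun z : ℤ => 2 ^ n * y ≤ |(z : ℝ)| ∧ |(z : ℝ)| < 2 ^ (n + 1) * y) := by
        ext z
        simp only [Finset.mem_filter, Finset.mem_union]
        constructor
        · rintro ⟨h1, h2⟩
          rcases lt_or_ge |(z : ℝ)| (2 ^ n * y) with h | h
          · exact Or.inl ⟨h1, h⟩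
          · exact Or.inr ⟨h1, h, h2⟩
        · rintro (⟨h1, h2⟩ | ⟨h1, -, h2⟩)
          · refine ⟨h1, h2.trans_le ?_⟩
            gcongr
            · norm_num
            · omega
          · exact ⟨h1, h2⟩
      have hdis : Disjoint (A.filter (fun z : ℤ => |(z : ℝ)| < 2 ^ n * y))
          (A.filter (fun z : ℤ => 2 ^ n * y ≤ |(z : ℝ)| ∧ |(z : ℝ)| < 2 ^ (n + 1) * y)) := by
        rw [Finset.disjoint_left]
        intro z h1 h2
        rw [Finset.mem_filter] at h1 h2
        exact absurd h1.2 (not_lt.2 h2.2.1)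
      rw [hsplit, Finset.sum_union hdis, Finset.sum_range_succ, mul_add]
      refine add_le_add ih ?_
      have hX1 : (1 : ℝ) ≤ 2 ^ (n + 1) * y := by
        have : (1 : ℝ) ≤ 2 ^ (n + 1) := one_le_pow₀ (by norm_num)
        nlinarith
      have hcard : ((A.filter (fun z : ℤ => 2 ^ n * y ≤ |(z : ℝ)| ∧
          |(z : ℝ)| < 2 ^ (n + 1) * y)).card : ℝ) ≤ C * (2 ^ (n + 1) * y) ^ (0.941 : ℝ) := by
        have hfin : {x : ℤ | |(x : ℝ)| ≤ 2 ^ (n + 1) * y ∧ x ∈ Function.periodicPts T}.Finite := by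
          refine (Set.finite_Icc (-⌈(2 : ℝ) ^ (n + 1) * y⌉) ⌈(2 : ℝ) ^ (n + 1) * y⌉).subset ?_
          intro z hz
          have h1 := abs_le.1 (show |(z : ℝ)| ≤ 2 ^ (n + 1) * y from hz.1)
          have h2 := Int.le_ceil ((2 : ℝ) ^ (n + 1) * y)
          constructor
          · have : ((-⌈(2 : ℝ) ^ (n + 1) * y⌉ : ℤ) : ℝ) ≤ z := by
              push_cast
              linarith
            exact_mod_cast this
          · have : (z : ℝ) ≤ ((⌈(2 : ℝ) ^ (n + 1) * y⌉ : ℤ) : ℝ) := by linarith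
            exact_mod_cast this
        have hle := Set.ncard_le_ncard
          (s := ((A.filter (fun z : ℤ => 2 ^ n * y ≤ |(z : ℝ)| ∧
            |(z : ℝ)| < 2 ^ (n + 1) * y) : Finset ℤ) : Set ℤ))
          (t := {x : ℤ | |(x : ℝ)| ≤ 2 ^ (n + 1) * y ∧ x ∈ Function.periodicPts T})
          (fun z hz => by
            rw [Finset.mem_coe, Finset.mem_filter] at hz
            exact ⟨hz.2.2.le, (hA z hz.1).1⟩) hfin
        rw [Set.ncard_coe_finset] at hle
        exact le_trans (Nat.cast_le.2 hle) (hC _ hX1)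
      have hpos : (0 : ℝ) < 2 ^ n * y := by positivity
      calc ∑ z ∈ A.filter (fun z : ℤ => 2 ^ n * y ≤ |(z : ℝ)| ∧ |(z : ℝ)| < 2 ^ (n + 1) * y),
            1 / |(z : ℝ)|
          ≤ ∑ _z ∈ A.filter (fun z : ℤ => 2 ^ n * y ≤ |(z : ℝ)| ∧
              |(z : ℝ)| < 2 ^ (n + 1) * y), 1 / (2 ^ n * y) := by
            refine Finset.sum_le_sum fun z hz => ?_
            rw [Finset.mem_filter] at hz
            exact one_div_le_one_div_of_le hpos hz.2.1
        _ = ((A.filter (fun z : ℤ => 2 ^ n * y ≤ |(z : ℝ)| ∧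
              |(z : ℝ)| < 2 ^ (n + 1) * y)).card : ℝ) * (1 / (2 ^ n * y)) := by
            rw [Finset.sum_const, nsmul_eq_mul]
        _ ≤ C * (2 ^ (n + 1) * y) ^ (0.941 : ℝ) * (1 / (2 ^ n * y)) := by gcongr
        _ = 2 * C * (2 ^ (n + 1) * y) ^ (-(0.059 : ℝ)) := by
            have hX0 : (0 : ℝ) < 2 ^ (n + 1) * y := by positivity
            have e1 : (2 ^ (n + 1) * y : ℝ) ^ (-(0.059 : ℝ))
                = (2 ^ (n + 1) * y) ^ (0.941 : ℝ) / (2 ^ (n + 1) * y) := by
              rw [show (-(0.059 : ℝ)) = 0.941 - 1 by norm_num, Real.rpow_sub_one hX0.ne']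
            rw [e1, pow_succ]
            field_simp
        _ ≤ 2 * C * Y * r ^ n := by
            have e2 : (2 ^ (n + 1) * y : ℝ) ^ (-(0.059 : ℝ)) = r ^ (n + 1) * Y := by
              rw [Real.mul_rpow (by positivity) hy0.le, hr, hY, ← Real.rpow_natCast 2 (n + 1),
                ← Real.rpow_natCast, ← Real.rpow_mul (by norm_num), ← Real.rpow_mul (by norm_num),
                mul_comm (-(0.059 : ℝ))]
            rw [e2, pow_succ]
            have : r ^ n * r * Y ≤ Y * r ^ n := by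
              have h1 : 0 ≤ Y * r ^ n := by positivity
              nlinarith
            calc 2 * C * (r ^ n * r * Y) ≤ 2 * C * (Y * r ^ n) := by gcongr
              _ = 2 * C * Y * r ^ n := by ring
  obtain ⟨n, hn⟩ : ∃ n : ℕ, ∀ z ∈ A, |(z : ℝ)| < 2 ^ n * y := by
    obtain ⟨n, hn⟩ := pow_unbounded_of_one_lt (∑ z ∈ A, |(z : ℝ)|) (by norm_num : (1 : ℝ) < 2)
    refine ⟨n, fun z hz => ?_⟩
    have h1 : |(z : ℝ)| ≤ ∑ z ∈ A, |(z : ℝ)| :=
      Finset.single_le_sum (f := fun z : ℤ => |(z : ℝ)|) (fun _ _ => abs_nonneg _) hz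
    have h2 : (0 : ℝ) < 2 ^ n := by positivity
    nlinarith
  have h1 := key n
  rw [Finset.filter_true_of_mem hn] at h1
  refine h1.trans ?_
  have hgeom : ∑ i ∈ Finset.range n, r ^ i ≤ 1 / (1 - r) := by
    rw [geom_sum_eq hr1.ne]
    have h2 : (r ^ n - 1) / (r - 1) = (1 - r ^ n) / (1 - r) := by
      rw [← neg_div_neg_eq]
      ring_nf
    rw [h2]
    have h3 : 0 < 1 - r := by linarith
    gcongr
    have : 0 ≤ r ^ n := by positivity
    linarith
  calc 2 * C * Y * ∑ i ∈ Finset.range n, r ^ i ≤ 2 * C * Y * (1 / (1 - r)) := by gcongr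
    _ = 2 * C * (1 / (1 - r)) * Y := by ring

/-- Cycles that avoid `(-y, y)`. -/
theorem sum_lam_tail : ∃ K : ℝ, 0 ≤ K ∧ ∀ (y : ℝ), 1 ≤ y → ∀ (F : Finset ι) (f : ι → ℤ),
    (∀ i ∈ F, f i ∈ periodicPts T ∧ ∀ z ∈ orb (f i), y ≤ |(z : ℝ)|) →
    ((F : Set ι).PairwiseDisjoint (fun i => orb (f i))) →
      ∑ i ∈ F, |lam (f i)| ≤ K * y ^ (-(0.059 : ℝ)) := by
  classical
  obtain ⟨K, hK0, hK⟩ := recip_tail
  refine ⟨K, hK0, ?_⟩
  intro y hy F f hF hdisj
  have hne : ∀ i ∈ F, f i ≠ 0 := by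
    intro i hi h0
    have h1 := (hF i hi).2 (f i) ((mem_orb (hF i hi).1).2 ⟨0, rfl⟩)
    rw [h0] at h1
    norm_num at h1
    linarith
  refine le_trans ?_ (hK y hy (F.biUnion (fun i => orb (f i))) ?_)
  · rw [Finset.sum_biUnion hdisj]
    refine Finset.sum_le_sum fun i hi => ?_
    rw [← sum_orb]
    exact abs_lam_le (hne i hi)
  · intro z hz
    obtain ⟨i, hi, hz⟩ := Finset.mem_biUnion.1 hz
    exact ⟨(mem_orb_symm (hF i hi).1 hz).1, (hF i hi).2 z hz⟩

end Pool.Agent.Lib.MP_edb5be_nt.H26F
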